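import Pool.Agent.H82.RP.TA

/-!
# MP_76b9e7_nt, row EXP: the square of a sum of pairwise orthogonal weights
-/

set_option autoImplicit false

open Finset Real ArithmeticFunction
open scoped Nat ArithmeticFunction.Moebius

namespace Pool.Agent.H46.RP

open Pool.Agent.H30.BV (NX As Er Sad qj PZ lv nl)
open Pool.Agent.H31.MP (RS Rgh Pz Me Om Omr Wt Lam QF V1 nu dvh)
open Pool.Agent.H82.RP

theorem RH_union (y₀ : ℕ) (z : ℝ) (S T : Finset ℕ) (n : ℕ) :
    RH y₀ z (S ∪ T) n ↔ RH y₀ z S n ∧ RH y₀ z T n := by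
  unfold RH
  constructor
  · intro h
    exact ⟨fun p hp s hs => h p hp s (Finset.mem_union_left _ hs),
      fun p hp s hs => h p hp s (Finset.mem_union_right _ hs)⟩
  · rintro ⟨h1, h2⟩ p hp s hs
    rcases Finset.mem_union.1 hs with h | h
    · exact h1 p hp s h
    · exact h2 p hp s h

theorem mem_OS (X : ℝ) (y₀ : ℕ) (z : ℝ) (S : Finset ℕ) (n : ℕ) :
    n ∈ OS X y₀ z S ↔ n ∈ Om X y₀ ∧ RH y₀ z S n := by
  simp only [OS, Finset.mem_filter]

theorem pairsum (X : ℝ) (y₀ : ℕ) (z : ℝ) (S0 S1 S2 : Finset ℕ) (a b : ℕ → ℝ)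
    [DecidablePred (RH y₀ z S1)] [DecidablePred (RH y₀ z S2)] :
    ∑ n ∈ OS X y₀ z S0, (if RH y₀ z S1 n then a n else 0) * (if RH y₀ z S2 n then b n else 0) =
      ∑ n ∈ OS X y₀ z (S0 ∪ (S1 ∪ S2)), a n * b n := by
  classical
  have h : OS X y₀ z (S0 ∪ (S1 ∪ S2)) =
      (OS X y₀ z S0).filter fun n => RH y₀ z S1 n ∧ RH y₀ z S2 n := by
    ext n
    rw [Finset.mem_filter, mem_OS, mem_OS, RH_union, RH_union]
    tauto
  rw [h, Finset.sum_filter]
  refine Finset.sum_congr rfl fun n _ => ?_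
  by_cases h1 : RH y₀ z S1 n
  · by_cases h2 : RH y₀ z S2 n
    · rw [if_pos h1, if_pos h2, if_pos ⟨h1, h2⟩]
    · rw [if_neg h2, mul_zero, if_neg fun h => h2 h.2]
  · rw [if_neg h1, zero_mul, if_neg fun h => h1 h.1]

theorem splitsum {α : Type} (G : Finset α) (H : α) (hH : H ∈ G)
    [DecidablePred fun H' : α => H' ≠ H] (t : α → ℝ) :
    ∑ H' ∈ G, t H' = t H + ∑ H' ∈ G.filter (fun H' => H' ≠ H), t H' := by
  classical
  have h : G.filter (fun H' => H' ≠ H) = G.erase H := by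
    ext x
    rw [Finset.mem_filter, Finset.mem_erase]
    tauto
  rw [h, Finset.add_sum_erase G t hH]

theorem WG_mono {I : Type} [Fintype I] [DecidableEq I] {U V : Finset I} {z Y C : ℝ}
    {l : (I → ℕ) → ℝ} (h : WG U z Y C l) (hUV : U ⊆ V) : WG V z Y C l :=
  ⟨fun d hd => ⟨(h.supp d hd).1, (h.supp d hd).2.1,
    fun i hi => (h.supp d hd).2.2 i fun h' => hi (hUV h')⟩, h.bd⟩

theorem pf_EXP (h1 : T_IGT) (h2 : T_IXX) : T_EXP := by
  classical
  intro K
  obtain ⟨C1, hC1, hIG⟩ := h1 (3 * K)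
  obtain ⟨C2, hC2, hIX⟩ := h2 (3 * K)
  refine ⟨C1 + C2, by linarith, fun η hη hη1 => ?_⟩
  obtain ⟨b1, hb1, hIG⟩ := hIG η hη hη1
  obtain ⟨b2, hb2, hIX⟩ := hIX η hη hη1
  have hlog : 0 ≤ Real.log (1 / η) := Real.log_nonneg (by rw [le_div_iff₀ hη]; linarith)
  refine ⟨max b1 b2, ?_, ?_⟩
  · push_cast
    refine max_le ?_ ?_
    · nlinarith
    · nlinarith
  intro y₀ A δ C H₀ hy hδ hδb hC
  have hδ1 : δ * (4 * b1 + 6) ≤ 1 / 4 := by
    refine le_trans (mul_le_mul_of_nonneg_left ?_ hδ.le) hδb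
    have : (b1 : ℝ) ≤ ((max b1 b2 : ℕ) : ℝ) := by exact_mod_cast le_max_left b1 b2
    linarith
  have hδ2 : δ * (4 * b2 + 6) ≤ 1 / 4 := by
    refine le_trans (mul_le_mul_of_nonneg_left ?_ hδ.le) hδb
    have : (b2 : ℝ) ≤ ((max b1 b2 : ℕ) : ℝ) := by exact_mod_cast le_max_right b1 b2
    linarith
  obtain ⟨X1, hIG⟩ := hIG y₀ (A + 2 * K + 1) δ C H₀ (by omega) hδ hδ1 hC
  obtain ⟨X2, hIX⟩ := hIX y₀ (A + 2 * K + 1) δ C H₀ (by omega) hδ hδ2 hC
  refine ⟨max (max X1 X2) (Real.exp (H₀ ^ (2 * K) + 2)), fun X hX => ?_⟩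
  intro I _ _ P U₀ G Y L hU₀ hG hP hPb hGc hY hYX hWG horth
  have hX1 : X1 ≤ X := (le_max_left _ _).trans ((le_max_left _ _).trans hX)
  have hX2 : X2 ≤ X := (le_max_right _ _).trans ((le_max_left _ _).trans hX)
  have hX3 : Real.exp (H₀ ^ (2 * K) + 2) ≤ X := (le_max_right _ _).trans hX
  have hX0 : 0 < X := (Real.exp_pos _).trans_le hX3
  have hlX : H₀ ^ (2 * K) + 2 ≤ Real.log X := (Real.le_log_iff_exp_le hX0).2 hX3
  have hH0 : 0 ≤ H₀ ^ (2 * K) := by rw [pow_mul]; positivity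
  have hl0 : 0 < Real.log X := by linarith
  have hIG' := hIG X hX1 I P
  have hIX' := hIX X hX2 I P
  set z : ℝ := X ^ δ with hz
  set er : ℝ := X / Real.log X ^ (A + 2 * K + 1) with her
  have her0 : 0 ≤ er := by positivity
  -- the sums over pairs
  set T : Finset I → Finset I → ℝ := fun H H' =>
    ∑ n ∈ OS X y₀ z ((U₀ ∪ (H ∪ H')).image P), LG z Y (L H) P n * LG z Y (L H') P n with hT
  set D : Finset I → ℝ := fun H =>
    EE X y₀ z ((U₀ ∪ H).image P) * QB z Y (L H) (L H) with hD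
  set O : Finset I → Finset I → ℝ := fun H H' =>
    EE X y₀ z ((U₀ ∪ (H ∪ H')).image P) * (QB z Y (L H) (L H) + QB z Y (L H') (L H')) with hO
  have hdiag : ∀ H ∈ G, |T H H - D H| ≤ η * D H + er := by
    intro H hH
    have hc : (U₀ ∪ H).card ≤ 3 * K := by
      have := Finset.card_union_le U₀ H
      have := hG H hH
      omega
    obtain ⟨h3, h4⟩ := hIG' (U₀ ∪ H) Y (L H) hc hP.injOn (fun i _ => hPb i) hY hYX (hWG H hH)
    have h5 : T H H = ∑ n ∈ OS X y₀ z ((U₀ ∪ H).image P), LG z Y (L H) P n ^ 2 := by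
      simp only [hT]
      rw [Finset.union_self]
      exact Finset.sum_congr rfl fun n _ => (sq _).symm
    rw [h5, abs_le]
    constructor
    · simp only [hD]; linarith
    · simp only [hD]; linarith
  have hoff : ∀ H ∈ G, ∀ H' ∈ G, H ≠ H' → |T H H'| ≤ η * O H H' + er := by
    intro H hH H' hH' hne
    have hc : (U₀ ∪ (H ∪ H')).card ≤ 3 * K := by
      have := Finset.card_union_le U₀ (H ∪ H')
      have := Finset.card_union_le H H'
      have := hG H hH
      have := hG H' hH'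
      omega
    exact hIX' (U₀ ∪ (H ∪ H')) Y (L H) (L H') hc hP.injOn (fun i _ => hPb i) hY hYX
      (WG_mono (hWG H hH) (Finset.union_subset_union_right Finset.subset_union_left))
      (WG_mono (hWG H' hH') (Finset.union_subset_union_right Finset.subset_union_right))
      (horth H hH H' hH' hne)
  -- expansion of the square
  have hexp : ∑ n ∈ OS X y₀ z (U₀.image P),
      (∑ H ∈ G, if RH y₀ z (H.image P) n then LG z Y (L H) P n else 0) ^ 2 =
      ∑ H ∈ G, ∑ H' ∈ G, T H H' := by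
    have h3 : ∀ n, (∑ H ∈ G, if RH y₀ z (H.image P) n then LG z Y (L H) P n else 0) ^ 2 =
        ∑ H ∈ G, ∑ H' ∈ G, (if RH y₀ z (H.image P) n then LG z Y (L H) P n else 0) *
          (if RH y₀ z (H'.image P) n then LG z Y (L H') P n else 0) := by
      intro n
      rw [sq, Finset.sum_mul_sum]
    rw [Finset.sum_congr rfl fun n _ => h3 n, Finset.sum_comm]
    refine Finset.sum_congr rfl fun H _ => ?_
    rw [Finset.sum_comm]
    refine Finset.sum_congr rfl fun H' _ => ?_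
    rw [pairsum]
    simp only [hT]
    rw [Finset.image_union, Finset.image_union]
  have hsp : ∑ H ∈ G, ∑ H' ∈ G, T H H' =
      ∑ H ∈ G, (T H H + ∑ H' ∈ G.filter (fun H' => H' ≠ H), T H H') :=
    Finset.sum_congr rfl fun H hH => splitsum G H hH (T H)
  have hmain : |∑ H ∈ G, (T H H + ∑ H' ∈ G.filter (fun H' => H' ≠ H), T H H') - ∑ H ∈ G, D H| ≤
      ∑ H ∈ G, (η * D H + er + ∑ H' ∈ G.filter (fun H' => H' ≠ H), (η * O H H' + er)) := by
    rw [← Finset.sum_sub_distrib]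
    refine (Finset.abs_sum_le_sum_abs _ _).trans (Finset.sum_le_sum fun H hH => ?_)
    have h3 : T H H + ∑ H' ∈ G.filter (fun H' => H' ≠ H), T H H' - D H =
        (T H H - D H) + ∑ H' ∈ G.filter (fun H' => H' ≠ H), T H H' := by ring
    rw [h3]
    refine (abs_add_le _ _).trans (add_le_add (hdiag H hH) ?_)
    refine (Finset.abs_sum_le_sum_abs _ _).trans (Finset.sum_le_sum fun H' hH' => ?_)
    rw [Finset.mem_filter] at hH'
    exact hoff H hH H' hH'.1 (fun h => hH'.2 h.symm)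
  have herr : ∑ H ∈ G, (η * D H + er + ∑ H' ∈ G.filter (fun H' => H' ≠ H), (η * O H H' + er)) =
      η * ∑ H ∈ G, D H + η * ∑ H ∈ G, ∑ H' ∈ G.filter (fun H' => H' ≠ H), O H H' +
        (G.card : ℝ) ^ 2 * er := by
    have h3 : ∀ H ∈ G, er + ∑ H' ∈ G.filter (fun H' => H' ≠ H), er = (G.card : ℝ) * er := by
      intro H hH
      rw [← splitsum G H hH (fun _ => er), Finset.sum_const, nsmul_eq_mul]
    have h4 : ∀ H ∈ G, η * D H + er + ∑ H' ∈ G.filter (fun H' => H' ≠ H), (η * O H H' + er) =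
        η * D H + η * ∑ H' ∈ G.filter (fun H' => H' ≠ H), O H H' + (G.card : ℝ) * er := by
      intro H hH
      rw [← h3 H hH, Finset.sum_add_distrib, Finset.mul_sum]
      ring
    rw [Finset.sum_congr rfl h4, Finset.sum_add_distrib, Finset.sum_add_distrib, Finset.sum_const,
      nsmul_eq_mul, ← Finset.mul_sum, ← Finset.mul_sum]
    ring
  have hfin : (G.card : ℝ) ^ 2 * er ≤ X / Real.log X ^ A := by
    have h3 : (G.card : ℝ) ^ 2 ≤ Real.log X ^ (2 * K + 1) := by
      calc (G.card : ℝ) ^ 2 ≤ ((H₀ * Real.log X) ^ K) ^ 2 :=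
            pow_le_pow_left₀ (Nat.cast_nonneg _) hGc 2
        _ = H₀ ^ (2 * K) * Real.log X ^ (2 * K) := by
            rw [← pow_mul, mul_pow, mul_comm K 2]
        _ ≤ Real.log X * Real.log X ^ (2 * K) := by
            apply mul_le_mul_of_nonneg_right _ (by positivity)
            linarith
        _ = Real.log X ^ (2 * K + 1) := by rw [pow_succ]; ring
    calc (G.card : ℝ) ^ 2 * er ≤ Real.log X ^ (2 * K + 1) * er :=
          mul_le_mul_of_nonneg_right h3 her0
      _ = X / Real.log X ^ A := by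
          have h4 : Real.log X ^ (2 * K + 1) ≠ 0 := (pow_pos hl0 _).ne'
          have h5 : Real.log X ^ A ≠ 0 := (pow_pos hl0 _).ne'
          have h6 : Real.log X ^ (A + 2 * K + 1) = Real.log X ^ (2 * K + 1) * Real.log X ^ A := by
            rw [← pow_add]
            congr 1
            ring
          rw [her, h6, mul_div_assoc', mul_div_mul_left _ _ h4]
  rw [hexp, hsp]
  refine hmain.trans ?_
  rw [herr]
  linarith

end Pool.Agent.H46.RP
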